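import Pool.Agent.Q120.BU.Stm

/-!
# Project BU (helper120), job MCD: McDiarmid's inequality for independent Bernoulli variables
-/

set_option autoImplicit false

namespace Pool.Agent.Q176.BU

open Finset Pool.Agent.Q120.ME Pool.Agent.Q120.BU

theorem bern_insert_not {p : ℕ → ℝ} {W T : Finset ℕ} {a : ℕ} (ha : a ∉ W) (hT : T ⊆ W) :
    bern p (insert a W) T = (1 - p a) * bern p W T := by
  unfold bern
  rw [Finset.prod_insert ha, if_neg (fun h => ha (hT h))]

theorem bern_insert_mem {p : ℕ → ℝ} {W T : Finset ℕ} {a : ℕ} (ha : a ∉ W) :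
    bern p (insert a W) (insert a T) = p a * bern p W T := by
  unfold bern
  rw [Finset.prod_insert ha, if_pos (Finset.mem_insert_self a T)]
  congr 1
  refine Finset.prod_congr rfl fun n hn => ?_
  have hna : n ≠ a := fun h => ha (h ▸ hn)
  simp only [Finset.mem_insert, hna, false_or]

theorem sum_insert_bern {p : ℕ → ℝ} {W : Finset ℕ} {a : ℕ} (ha : a ∉ W) (F : Finset ℕ → ℝ) :
    ∑ T ∈ (insert a W).powerset, bern p (insert a W) T * F T =
      ∑ T ∈ W.powerset, bern p W T * (p a * F (insert a T) + (1 - p a) * F T) := by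
  rw [Finset.sum_powerset_insert ha, ← Finset.sum_add_distrib]
  refine Finset.sum_congr rfl fun T hT => ?_
  rw [bern_insert_not ha (Finset.mem_powerset.1 hT), bern_insert_mem ha]
  ring

theorem bern_nonneg {p : ℕ → ℝ} {W : Finset ℕ} (hp : ∀ n ∈ W, 0 ≤ p n ∧ p n ≤ 1) (T : Finset ℕ) :
    0 ≤ bern p W T := by
  unfold bern
  refine Finset.prod_nonneg fun n hn => ?_
  obtain ⟨h0, h1⟩ := hp n hn
  split_ifs <;> linarith

/-- the marginal of the coordinates in `W` -/
theorem marginal (p : ℕ → ℝ) (W : Finset ℕ) (F : Finset ℕ → ℝ) (G' : Finset ℕ) (h : Disjoint G' W) :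
    ∑ T ∈ (G' ∪ W).powerset, bern p (G' ∪ W) T * F (T ∩ W) = ∑ T ∈ W.powerset, bern p W T * F T := by
  induction G' using Finset.induction_on with
  | empty =>
    rw [Finset.empty_union]
    refine Finset.sum_congr rfl fun T hT => ?_
    rw [Finset.inter_eq_left.2 (Finset.mem_powerset.1 hT)]
  | insert a G' ha ih =>
    rw [Finset.disjoint_insert_left] at h
    have h1 : a ∉ G' ∪ W := by
      rw [Finset.mem_union, not_or]
      exact ⟨ha, h.1⟩
    rw [← ih h.2, Finset.insert_union, sum_insert_bern h1 (fun T => F (T ∩ W))]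
    refine Finset.sum_congr rfl fun T _ => ?_
    rw [Finset.insert_inter_of_notMem h.1]
    ring

/-- the two point inequality -/
theorem two_point {q d b s : ℝ} (hq0 : 0 ≤ q) (hq1 : q ≤ 1) (hb : 0 < b) (hd : |d| ≤ b) :
    q * Real.exp (s * ((1 - q) * d)) + (1 - q) * Real.exp (s * (-(q * d))) ≤ Real.exp (s ^ 2 * b ^ 2 / 2) := by
  have key : ∀ y : ℝ, |y| ≤ b → Real.exp (s * y) ≤
      (b + y) / (2 * b) * Real.exp (s * b) + (b - y) / (2 * b) * Real.exp (s * (-b)) := by
    intro y hy
    obtain ⟨h1, h2⟩ := abs_le.1 hy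
    have h3 : 0 ≤ (b + y) / (2 * b) := div_nonneg (by linarith) (by linarith)
    have h4 : 0 ≤ (b - y) / (2 * b) := div_nonneg (by linarith) (by linarith)
    have h5 : (b + y) / (2 * b) + (b - y) / (2 * b) = 1 := by
      field_simp
      ring
    have h6 := convexOn_exp.2 (Set.mem_univ (s * b)) (Set.mem_univ (s * (-b))) h3 h4 h5
    simp only [smul_eq_mul] at h6
    refine le_trans (le_of_eq ?_) h6
    congr 1
    field_simp
    ring
  have h1 : |(1 - q) * d| ≤ b := by
    rw [abs_mul, abs_of_nonneg (by linarith : 0 ≤ 1 - q)]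
    nlinarith [abs_nonneg d]
  have h2 : |(-(q * d))| ≤ b := by
    rw [abs_neg, abs_mul, abs_of_nonneg hq0]
    nlinarith [abs_nonneg d]
  have e1 := mul_le_mul_of_nonneg_left (key _ h1) hq0
  have e2 := mul_le_mul_of_nonneg_left (key _ h2) (by linarith : 0 ≤ 1 - q)
  have e3 : q * ((b + (1 - q) * d) / (2 * b) * Real.exp (s * b) + (b - (1 - q) * d) / (2 * b) * Real.exp (s * (-b))) +
      (1 - q) * ((b + -(q * d)) / (2 * b) * Real.exp (s * b) + (b - -(q * d)) / (2 * b) * Real.exp (s * (-b))) =
      Real.cosh (s * b) := by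
    rw [Real.cosh_eq, mul_neg]
    field_simp
    ring
  have e4 := Real.cosh_le_exp_half_sq (s * b)
  rw [mul_pow] at e4
  linarith

/-- the exponential moments -/
theorem mgf (p : ℕ → ℝ) (b : ℝ) (hb : 0 < b) (s : ℝ) (W : Finset ℕ) : (∀ n ∈ W, 0 ≤ p n ∧ p n ≤ 1) →
    ∀ f : Finset ℕ → ℝ, (∀ T, ∀ a ∈ W, |f (insert a T) - f (T.erase a)| ≤ b) →
    ∑ T ∈ W.powerset, bern p W T * Real.exp (s * (f T - ∑ T' ∈ W.powerset, bern p W T' * f T')) ≤
      Real.exp (s ^ 2 * W.card * b ^ 2 / 2) := by
  induction W using Finset.induction_on with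
  | empty =>
    intro _ f _
    simp [bern]
  | insert a W ha ih =>
    intro hp f hf
    have hpa := hp a (Finset.mem_insert_self a W)
    have hpW : ∀ n ∈ W, 0 ≤ p n ∧ p n ≤ 1 := fun n hn => hp n (Finset.mem_insert_of_mem hn)
    set g : Finset ℕ → ℝ := fun T => p a * f (insert a T) + (1 - p a) * f T with hg
    have hgW : ∀ T, ∀ c ∈ W, |g (insert c T) - g (T.erase c)| ≤ b := by
      intro T c hc
      have hca : c ≠ a := fun h => ha (h ▸ hc)
      have h1 := hf (insert a T) c (Finset.mem_insert_of_mem hc)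
      have h2 := hf T c (Finset.mem_insert_of_mem hc)
      rw [Finset.insert_comm, Finset.erase_insert_of_ne hca.symm] at h1
      have h3 : g (insert c T) - g (T.erase c) =
          p a * (f (insert a (insert c T)) - f (insert a (T.erase c))) +
            (1 - p a) * (f (insert c T) - f (T.erase c)) := by
        simp only [hg]
        ring
      rw [h3]
      refine (abs_add_le _ _).trans ?_
      rw [abs_mul, abs_mul, abs_of_nonneg hpa.1, abs_of_nonneg (by linarith [hpa.2] : 0 ≤ 1 - p a)]
      nlinarith [hpa.1, hpa.2]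
    set E := ∑ T' ∈ (insert a W).powerset, bern p (insert a W) T' * f T' with hE
    have hE' : E = ∑ T' ∈ W.powerset, bern p W T' * g T' := by
      rw [hE, sum_insert_bern ha f]
    rw [sum_insert_bern ha (fun T => Real.exp (s * (f T - E)))]
    have h1 := ih hpW g hgW
    rw [← hE'] at h1
    have h2 : ∀ T ∈ W.powerset, bern p W T * (p a * Real.exp (s * (f (insert a T) - E)) +
        (1 - p a) * Real.exp (s * (f T - E))) ≤
        Real.exp (s ^ 2 * b ^ 2 / 2) * (bern p W T * Real.exp (s * (g T - E))) := by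
      intro T hT
      have haT : a ∉ T := fun h => ha (Finset.mem_powerset.1 hT h)
      have hd := hf T a (Finset.mem_insert_self a W)
      rw [Finset.erase_eq_of_notMem haT] at hd
      have h3 := two_point (s := s) hpa.1 hpa.2 hb hd
      have e1 : Real.exp (s * (f (insert a T) - E)) = Real.exp (s * (g T - E)) *
          Real.exp (s * ((1 - p a) * (f (insert a T) - f T))) := by
        rw [← Real.exp_add]
        congr 1
        simp only [hg]
        ring
      have e2 : Real.exp (s * (f T - E)) = Real.exp (s * (g T - E)) *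
          Real.exp (s * (-(p a * (f (insert a T) - f T)))) := by
        rw [← Real.exp_add]
        congr 1
        simp only [hg]
        ring
      rw [e1, e2]
      have h4 : 0 ≤ bern p W T * Real.exp (s * (g T - E)) := mul_nonneg (bern_nonneg hpW T) (Real.exp_pos _).le
      have h5 := mul_le_mul_of_nonneg_left h3 h4
      calc bern p W T * (p a * (Real.exp (s * (g T - E)) * Real.exp (s * ((1 - p a) * (f (insert a T) - f T)))) +
            (1 - p a) * (Real.exp (s * (g T - E)) * Real.exp (s * (-(p a * (f (insert a T) - f T))))))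
          = bern p W T * Real.exp (s * (g T - E)) * (p a * Real.exp (s * ((1 - p a) * (f (insert a T) - f T))) +
            (1 - p a) * Real.exp (s * (-(p a * (f (insert a T) - f T))))) := by ring
        _ ≤ bern p W T * Real.exp (s * (g T - E)) * Real.exp (s ^ 2 * b ^ 2 / 2) := h5
        _ = _ := by ring
    refine (Finset.sum_le_sum h2).trans ?_
    rw [← Finset.mul_sum]
    refine (mul_le_mul_of_nonneg_left h1 (Real.exp_pos _).le).trans (le_of_eq ?_)
    rw [← Real.exp_add]
    congr 1
    rw [Finset.card_insert_of_notMem ha]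
    push_cast
    ring

theorem expo (t b : ℝ) (c : ℕ) (hb : 0 < b) :
    -(t / (c * b ^ 2) * t) + (t / (c * b ^ 2)) ^ 2 * c * b ^ 2 / 2 = -(t ^ 2 / (2 * c * b ^ 2)) := by
  rcases Nat.eq_zero_or_pos c with h | h
  · rw [h]
    simp
  · have h7 : (0 : ℝ) < c := by exact_mod_cast h
    field_simp
    ring

theorem t_MCD : J_MCD := by
  intro p G W hWG hp f b t ht hb hfW hf
  set E := ∑ T' ∈ W.powerset, bern p W T' * f T' with hE
  have hpW : ∀ n ∈ W, 0 ≤ p n ∧ p n ≤ 1 := fun n hn => hp n (hWG hn)
  set s : ℝ := t / (W.card * b ^ 2) with hs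
  have hs0 : 0 ≤ s := div_nonneg ht.le (mul_nonneg (Nat.cast_nonneg _) (sq_nonneg b))
  have h1 := mgf p b hb s W hpW f hf
  have h2 := mgf p b hb (-s) W hpW f hf
  rw [← hE] at h1 h2
  rw [neg_sq] at h2
  -- reduction to `W`
  have hG : (G \ W) ∪ W = G := Finset.sdiff_union_of_subset hWG
  have h3 := marginal p W (fun T => if t ≤ |f T - E| then 1 else 0) (G \ W) Finset.sdiff_disjoint
  rw [hG] at h3
  have h4 : ∑ T ∈ G.powerset with t ≤ |f T - E|, bern p G T =
      ∑ T ∈ W.powerset, bern p W T * (if t ≤ |f T - E| then 1 else 0) := by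
    rw [← h3, Finset.sum_filter]
    refine Finset.sum_congr rfl fun T _ => ?_
    rw [← hfW T]
    split_ifs <;> simp
  rw [h4]
  have h5 : ∀ T ∈ W.powerset, bern p W T * (if t ≤ |f T - E| then 1 else 0) ≤
      Real.exp (-(s * t)) * (bern p W T * Real.exp (s * (f T - E)) + bern p W T * Real.exp (-s * (f T - E))) := by
    intro T _
    have hB := bern_nonneg hpW T
    have e1 := (Real.exp_pos (s * (f T - E))).le
    have e2 := (Real.exp_pos (-s * (f T - E))).le
    split_ifs with h
    · have h6 : 1 ≤ Real.exp (-(s * t)) * (Real.exp (s * (f T - E)) + Real.exp (-s * (f T - E))) := by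
        rw [mul_add, ← Real.exp_add, ← Real.exp_add]
        rcases abs_cases (f T - E) with ⟨h7, _⟩ | ⟨h7, _⟩
        · have h8 : 1 ≤ Real.exp (-(s * t) + s * (f T - E)) := by
            rw [Real.one_le_exp_iff]
            rw [h7] at h
            nlinarith
          have := (Real.exp_pos (-(s * t) + -s * (f T - E))).le
          linarith
        · have h8 : 1 ≤ Real.exp (-(s * t) + -s * (f T - E)) := by
            rw [Real.one_le_exp_iff]
            rw [h7] at h
            nlinarith
          have := (Real.exp_pos (-(s * t) + s * (f T - E))).le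
          linarith
      calc bern p W T * 1 ≤ bern p W T * (Real.exp (-(s * t)) *
            (Real.exp (s * (f T - E)) + Real.exp (-s * (f T - E)))) := mul_le_mul_of_nonneg_left h6 hB
        _ = _ := by ring
    · rw [mul_zero]
      positivity
  refine (Finset.sum_le_sum h5).trans ?_
  rw [← Finset.mul_sum, Finset.sum_add_distrib]
  have h6 : ∑ T ∈ W.powerset, bern p W T * Real.exp (s * (f T - E)) +
      ∑ T ∈ W.powerset, bern p W T * Real.exp (-s * (f T - E)) ≤ 2 * Real.exp (s ^ 2 * W.card * b ^ 2 / 2) := by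
    linarith
  refine (mul_le_mul_of_nonneg_left h6 (Real.exp_pos _).le).trans (le_of_eq ?_)
  rw [mul_left_comm, ← Real.exp_add]
  congr 2
  rw [hs]
  exact expo t b W.card hb

end Pool.Agent.Q176.BU
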